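import Pool.Agent.H69.GN.Stm

set_option autoImplicit false

namespace Pool.Agent.H56.GN

open Finset Pool.Agent.H69.GN

theorem card_prod_pow (G H : Type) [Group G] [Group H] (d : ℕ) :
    Nat.card {x : G × H // x ^ d = 1} = Nat.card {x : G // x ^ d = 1} *
      Nat.card {x : H // x ^ d = 1} := by
  rw [← Nat.card_prod]
  refine Nat.card_congr ?_
  exact
    { toFun := fun x => (⟨x.1.1, congrArg Prod.fst x.2⟩, ⟨x.1.2, congrArg Prod.snd x.2⟩)
      invFun := fun y => ⟨(y.1.1, y.2.1), Prod.ext y.1.2 y.2.2⟩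
      left_inv := fun x => rfl
      right_inv := fun y => rfl }

theorem card_pow_congr {G H : Type} [Group G] [Group H] (e : G ≃* H) (d : ℕ) :
    Nat.card {x : G // x ^ d = 1} = Nat.card {x : H // x ^ d = 1} := by
  refine Nat.card_congr (e.toEquiv.subtypeEquiv ?_)
  intro x
  change x ^ d = 1 ↔ (e x) ^ d = 1
  rw [← map_pow, map_eq_one_iff e e.injective]

theorem tor : S_TOR := by
  intro W hW d hd
  classical
  induction W using Finset.induction_on with
  | empty =>
    rw [Finset.prod_empty, Finset.prod_empty]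
    haveI : Subsingleton (ZMod 1)ˣ := by infer_instance
    haveI : Subsingleton {x : (ZMod 1)ˣ // x ^ d = 1} := by infer_instance
    haveI : Nonempty {x : (ZMod 1)ˣ // x ^ d = 1} := ⟨⟨1, one_pow d⟩⟩
    exact Nat.card_unique
  | insert q W hq ih =>
    have hqp : q.Prime := hW q (mem_insert_self q W)
    have hWp : ∀ r ∈ W, r.Prime := fun r hr => hW r (mem_insert_of_mem hr)
    have hcop : Nat.Coprime q (∏ r ∈ W, r) := by
      refine Nat.Coprime.prod_right fun r hr => ?_
      rw [Nat.coprime_primes hqp (hWp r hr)]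
      rintro rfl
      exact hq hr
    rw [Finset.prod_insert hq, Finset.prod_insert hq, ← ih hWp]
    have e : (ZMod (q * ∏ r ∈ W, r))ˣ ≃* (ZMod q)ˣ × (ZMod (∏ r ∈ W, r))ˣ :=
      (Units.mapEquiv (ZMod.chineseRemainder hcop).toMulEquiv).trans MulEquiv.prodUnits
    rw [card_pow_congr e d, card_prod_pow]
    congr 1
    haveI : Fact q.Prime := ⟨hqp⟩
    have h := IsCyclic.card_powMonoidHom_ker (G := (ZMod q)ˣ) d
    have h2 : Nat.card (ZMod q)ˣ = q - 1 := by
      rw [Nat.card_eq_fintype_card, ZMod.card_units_eq_totient, Nat.totient_prime hqp]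
    rw [h2, Nat.gcd_comm] at h
    rw [← h]
    refine Nat.card_congr (Equiv.subtypeEquivRight fun x => ?_)
    rw [MonoidHom.mem_ker]
    rfl
end Pool.Agent.H56.GN
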